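import Pool.Agent.H31.LEV.Targets

/-!
Row BLA: the Blaschke factor of the half strip.
-/

set_option autoImplicit false

open Complex Filter Topology Set
open Pool.Agent.H31.LEV

namespace Pool.Agent.H80.LEV

lemma arg_re (a t₀ U : ℝ) (s : ℂ) : (Real.pi * (s - pt a t₀) / U : ℂ).re =
    Real.pi * (s.re - a) / U := by
  rw [Complex.div_ofReal_re, Complex.re_ofReal_mul]
  simp [pt]

lemma arg_im (a t₀ U : ℝ) (s : ℂ) : (Real.pi * (s - pt a t₀) / U : ℂ).im =
    Real.pi * (s.im - t₀) / U := by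
  rw [Complex.div_ofReal_im, Complex.im_ofReal_mul]
  simp [pt]

lemma cz_im (a t₀ U : ℝ) (s : ℂ) : (cz a t₀ U s).im =
    Real.sinh (Real.pi * (s.re - a) / U) * Real.sin (Real.pi * (s.im - t₀) / U) := by
  unfold cz
  rw [← arg_re a t₀ U s, ← arg_im a t₀ U s]
  generalize (Real.pi * (s - pt a t₀) / U : ℂ) = z
  obtain ⟨x, y⟩ := z
  change (cosh ⟨x, y⟩).im = Real.sinh x * Real.sin y
  rw [Complex.mk_eq_add_mul_I, Complex.cosh_add, Complex.cosh_mul_I, Complex.sinh_mul_I]
  rw [← Complex.ofReal_cosh, ← Complex.ofReal_sinh, ← Complex.ofReal_cos, ← Complex.ofReal_sin]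
  simp only [Complex.add_im, Complex.mul_im, Complex.ofReal_re, Complex.ofReal_im, Complex.mul_re,
    Complex.I_re, Complex.I_im]
  ring

lemma cosh_sub_ne {z z' : ℂ} (h0 : 0 ≤ z.re) (h1 : 0 < z'.re) (h2 : |z.im - z'.im| < 2 * Real.pi)
    (hne : z ≠ z') : cosh z ≠ cosh z' := by
  intro h
  rw [← Complex.cos_mul_I z, ← Complex.cos_mul_I z'] at h
  have h3 : Complex.cos (z * I) - Complex.cos (z' * I) = 0 := sub_eq_zero.2 h
  rw [Complex.cos_sub_cos] at h3
  have h4 : Complex.sin ((z * I + z' * I) / 2) = 0 ∨ Complex.sin ((z * I - z' * I) / 2) = 0 := by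
    rcases mul_eq_zero.1 h3 with h5 | h5
    · rcases mul_eq_zero.1 h5 with h6 | h6
      · norm_num at h6
      · exact Or.inl h6
    · exact Or.inr h5
  rcases h4 with h5 | h5
  · obtain ⟨k, hk⟩ := Complex.sin_eq_zero_iff.1 h5
    have h6 := congrArg Complex.im hk
    have h7 : ((z * I + z' * I) / 2).im = (z.re + z'.re) / 2 := by
      rw [show (2 : ℂ) = ((2 : ℝ) : ℂ) by norm_num, Complex.div_ofReal_im]
      simp
    rw [h7] at h6
    have h8 : ((k : ℂ) * (Real.pi : ℂ)).im = 0 := by
      rw [show ((k : ℂ) * (Real.pi : ℂ)) = (((k : ℝ) * Real.pi : ℝ) : ℂ) by push_cast; rfl]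
      exact Complex.ofReal_im _
    rw [h8] at h6
    linarith
  · obtain ⟨k, hk⟩ := Complex.sin_eq_zero_iff.1 h5
    have h6 := congrArg Complex.re hk
    have h7 : ((z * I - z' * I) / 2).re = -(z.im - z'.im) / 2 := by
      rw [show (2 : ℂ) = ((2 : ℝ) : ℂ) by norm_num, Complex.div_ofReal_re]
      simp
      ring
    rw [h7] at h6
    have h8 : ((k : ℂ) * (Real.pi : ℂ)).re = k * Real.pi := by
      rw [show ((k : ℂ) * (Real.pi : ℂ)) = (((k : ℝ) * Real.pi : ℝ) : ℂ) by push_cast; rfl]
      exact Complex.ofReal_re _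
    rw [h8] at h6
    have hpi := Real.pi_pos
    have h9 : |(k : ℝ) * Real.pi| < Real.pi := by
      rw [← h6, abs_div, abs_neg, abs_of_pos (by norm_num : (0 : ℝ) < 2)]
      linarith
    rw [abs_mul, abs_of_pos hpi] at h9
    have h10 : |(k : ℝ)| < 1 := by
      by_contra hc
      push Not at hc
      nlinarith
    have h11 : k = 0 := by
      have : |k| < 1 := by exact_mod_cast h10
      exact Int.abs_lt_one_iff.1 this
    rw [h11] at hk
    have h12 : z * I - z' * I = 0 := by
      have := hk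
      simp only [Int.cast_zero, zero_mul] at this
      have h13 := (div_eq_zero_iff.1 this)
      rcases h13 with h14 | h14
      · exact h14
      · norm_num at h14
    apply hne
    have h15 : (z - z') * I = 0 := by rw [sub_mul]; exact h12
    rcases mul_eq_zero.1 h15 with h16 | h16
    · exact sub_eq_zero.1 h16
    · exact absurd h16 Complex.I_ne_zero

lemma sinh_ne {z : ℂ} (h : 0 < z.re) : sinh z ≠ 0 := by
  intro h0
  have h1 : Complex.sin (z * I) = 0 := by rw [Complex.sin_mul_I, h0, zero_mul]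
  obtain ⟨k, hk⟩ := Complex.sin_eq_zero_iff.1 h1
  have h6 := congrArg Complex.im hk
  have h8 : ((k : ℂ) * (Real.pi : ℂ)).im = 0 := by
    rw [show ((k : ℂ) * (Real.pi : ℂ)) = (((k : ℝ) * Real.pi : ℝ) : ℂ) by push_cast; rfl]
    exact Complex.ofReal_im _
  rw [h8] at h6
  simp at h6
  linarith

lemma cz_hasDeriv (a t₀ U : ℝ) (s : ℂ) : HasDerivAt (cz a t₀ U)
    (sinh (Real.pi * (s - pt a t₀) / U) * (Real.pi * 1 / U)) s := by
  have h1 : HasDerivAt (fun s : ℂ => (Real.pi * (s - pt a t₀) / U : ℂ)) (Real.pi * 1 / U) s :=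
    (((hasDerivAt_id s).sub_const _).const_mul _).div_const _
  exact (Complex.hasDerivAt_cosh _).comp s h1

lemma cz_diff (a t₀ U : ℝ) : Differentiable ℂ (cz a t₀ U) :=
  fun s => (cz_hasDeriv a t₀ U s).differentiableAt

/-- the denominator is not zero in the closed half strip -/
lemma den_ne {a t₀ U : ℝ} {ρ : ℂ} (hU : 0 < U) (ha : a < ρ.re) (h1 : t₀ < ρ.im)
    (h2 : ρ.im < t₀ + U) {s : ℂ} (hs : a ≤ s.re) (hs1 : t₀ ≤ s.im) (hs2 : s.im ≤ t₀ + U) :
    cz a t₀ U s - (starRingEnd ℂ) (cz a t₀ U ρ) ≠ 0 := by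
  intro h
  have h3 := congrArg Complex.im h
  rw [Complex.sub_im, Complex.conj_im, Complex.zero_im, cz_im, cz_im] at h3
  have hpi := Real.pi_pos
  have h4 : 0 ≤ Real.sinh (Real.pi * (s.re - a) / U) :=
    Real.sinh_nonneg_iff.2 (div_nonneg (mul_nonneg hpi.le (by linarith)) hU.le)
  have h5 : 0 < Real.sinh (Real.pi * (ρ.re - a) / U) :=
    Real.sinh_pos_iff.2 (div_pos (mul_pos hpi (by linarith)) hU)
  have h6 : 0 ≤ Real.sin (Real.pi * (s.im - t₀) / U) := by
    apply Real.sin_nonneg_of_nonneg_of_le_pi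
    · exact div_nonneg (mul_nonneg hpi.le (by linarith)) hU.le
    · rw [div_le_iff₀ hU]
      exact mul_le_mul_of_nonneg_left (by linarith) hpi.le
  have h7 : 0 < Real.sin (Real.pi * (ρ.im - t₀) / U) := by
    apply Real.sin_pos_of_pos_of_lt_pi
    · exact div_pos (mul_pos hpi (by linarith)) hU
    · rw [div_lt_iff₀ hU]
      exact mul_lt_mul_of_pos_left (by linarith) hpi
  have h8 := mul_nonneg h4 h6
  have h9 := mul_pos h5 h7
  linarith

/-- norm one where the imaginary part of the map is zero -/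
lemma norm_one {a t₀ U : ℝ} {ρ s : ℂ} (hd : cz a t₀ U s - (starRingEnd ℂ) (cz a t₀ U ρ) ≠ 0)
    (hr : (cz a t₀ U s).im = 0) : ‖bl a t₀ U ρ s‖ = 1 := by
  unfold bl
  rw [norm_div]
  have h1 : (starRingEnd ℂ) (cz a t₀ U s) = cz a t₀ U s := Complex.conj_eq_iff_im.2 hr
  have h2 : ‖cz a t₀ U s - cz a t₀ U ρ‖ = ‖cz a t₀ U s - (starRingEnd ℂ) (cz a t₀ U ρ)‖ := by
    rw [← Complex.norm_conj (cz a t₀ U s - cz a t₀ U ρ), map_sub, h1]
  rw [h2]
  exact div_self (norm_ne_zero_iff.2 hd)

theorem pf_BLA : T_BLA := by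
  intro a t₀ U ρ hU ha h1 h2
  have hpi := Real.pi_pos
  refine ⟨⟨{s | cz a t₀ U s - (starRingEnd ℂ) (cz a t₀ U ρ) ≠ 0},
    fun s => dslope (cz a t₀ U) ρ s / (cz a t₀ U s - (starRingEnd ℂ) (cz a t₀ U ρ)),
    ?_, ?_, ?_, ?_, ?_, ?_⟩, ?_, ?_⟩
  · exact isOpen_ne_fun ((cz_diff a t₀ U).continuous.sub continuous_const) continuous_const
  · intro s hs hs1 hs2
    exact den_ne hU ha h1 h2 hs hs1 hs2
  · exact ((cz_diff a t₀ U).sub_const _).differentiableOn.div
      ((cz_diff a t₀ U).sub_const _).differentiableOn (fun s hs => hs)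
  · have h3 : DifferentiableOn ℂ (dslope (cz a t₀ U) ρ) univ :=
      (Complex.differentiableOn_dslope univ_mem).2 (cz_diff a t₀ U).differentiableOn
    exact (h3.mono (subset_univ _)).div
      ((cz_diff a t₀ U).sub_const _).differentiableOn (fun s hs => hs)
  · intro s _
    have h3 := sub_smul_dslope (cz a t₀ U) ρ s
    rw [smul_eq_mul] at h3
    unfold bl
    rw [← h3, mul_div_assoc]
  · intro s hs hs1 hs2
    have hd := den_ne hU ha h1 h2 hs hs1 hs2
    refine div_ne_zero ?_ hd
    by_cases hsr : s = ρ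
    · rw [hsr, dslope_same, (cz_hasDeriv a t₀ U ρ).deriv]
      refine mul_ne_zero (sinh_ne ?_) ?_
      · rw [arg_re]
        exact div_pos (mul_pos hpi (by linarith)) hU
      · rw [mul_one]
        exact div_ne_zero (by exact_mod_cast hpi.ne') (by exact_mod_cast hU.ne')
    · rw [dslope_of_ne _ hsr, slope_def_field]
      refine div_ne_zero ?_ (sub_ne_zero.2 hsr)
      refine sub_ne_zero.2 ?_
      unfold cz
      apply cosh_sub_ne
      · rw [arg_re]
        exact div_nonneg (mul_nonneg hpi.le (by linarith)) hU.le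
      · rw [arg_re]
        exact div_pos (mul_pos hpi (by linarith)) hU
      · rw [arg_im, arg_im, ← sub_div, ← mul_sub, abs_div, abs_of_pos hU, abs_mul, abs_of_pos hpi,
          div_lt_iff₀ hU]
        have h4 : |s.im - t₀ - (ρ.im - t₀)| < 2 * U := by
          rw [abs_lt]
          constructor <;> linarith
        calc Real.pi * |s.im - t₀ - (ρ.im - t₀)| < Real.pi * (2 * U) :=
              mul_lt_mul_of_pos_left h4 hpi
          _ = 2 * Real.pi * U := by ring
      · intro h
        apply hsr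
        have hU' : (U : ℂ) ≠ 0 := by exact_mod_cast hU.ne'
        have hp' : (Real.pi : ℂ) ≠ 0 := by exact_mod_cast hpi.ne'
        have h5 := (div_left_inj' hU').1 h
        have h6 := mul_left_cancel₀ hp' h5
        exact sub_left_injective h6
  · intro t ht0 ht1
    have hre : (pt a (t₀ + t)).re = a := by simp [pt]
    have him : (pt a (t₀ + t)).im = t₀ + t := by simp [pt]
    apply norm_one
    · apply den_ne hU ha h1 h2
      · rw [hre]
      · rw [him]; linarith
      · rw [him]; linarith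
    · rw [cz_im, hre]
      simp
  · intro x hx
    constructor
    · have hre : (pt x t₀).re = x := by simp [pt]
      have him : (pt x t₀).im = t₀ := by simp [pt]
      apply norm_one
      · apply den_ne hU ha h1 h2
        · rw [hre]; exact hx
        · rw [him]
        · rw [him]; linarith
      · rw [cz_im, him]
        simp
    · have hre : (pt x (t₀ + U)).re = x := by simp [pt]
      have him : (pt x (t₀ + U)).im = t₀ + U := by simp [pt]
      apply norm_one
      · apply den_ne hU ha h1 h2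
        · rw [hre]; exact hx
        · rw [him]; linarith
        · rw [him]
      · rw [cz_im, him, add_sub_cancel_left, mul_div_cancel_right₀ Real.pi hU.ne',
          Real.sin_pi, mul_zero]

end Pool.Agent.H80.LEV
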